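import Pool.Agent.Q266.VG.Stm

/-!
# Project VG, jobs EVT and EVQ
-/

namespace Pool.Agent.Q266.VG

open scoped commutatorElement

/-- the commutator -/
def Br {R : Type} [Ring R] (X Y : R) : R := X * Y - Y * X

section Alg

variable {R : Type} [Ring R]

theorem br_lead (Z X Y x y : R) : Z - 1 - Br x y =
    (Z - 1 - (X * Y - Y * X)) + (Br (X - x) Y + Br x (Y - y)) := by
  unfold Br; noncomm_ring

theorem br_sub_right (X Y Z : R) : Br X (Y - Z) = Br X Y - Br X Z := by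
  unfold Br; noncomm_ring

theorem br_add_right (X Y Z : R) : Br X (Y + Z) = Br X Y + Br X Z := by
  unfold Br; noncomm_ring

theorem br_add_left (X Y Z : R) : Br (X + Y) Z = Br X Z + Br Y Z := by
  unfold Br; noncomm_ring

theorem br_sub_left (X Y Z : R) : Br (X - Y) Z = Br X Z - Br Y Z := by
  unfold Br; noncomm_ring

theorem br_self (X : R) : Br X X = 0 := by
  unfold Br; noncomm_ring

theorem br_anti (X Y : R) : Br X Y = - Br Y X := by
  unfold Br; noncomm_ring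

theorem br_smul_right [Algebra (ZMod 7) R] (t : ZMod 7) (X Y : R) : Br X (t • Y) = t • Br X Y := by
  unfold Br
  rw [mul_smul_comm, smul_mul_assoc, smul_sub]

theorem br_smul_left [Algebra (ZMod 7) R] (t : ZMod 7) (X Y : R) : Br (t • X) Y = t • Br X Y := by
  unfold Br
  rw [mul_smul_comm, smul_mul_assoc, smul_sub]

theorem alg_sub (g h : R) : Br (g - 1) (h - 1) = g * h - h * g := by
  unfold Br; noncomm_ring

theorem alg_inv (G H G' H' : R) (eg : G' * G = 1) (eh : H' * H = 1) :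
    G' * H' - 1 + (G - 1) + (H - 1) =
        (G' - 1) * (H' - 1) + (-((G' - 1) * (G - 1)) + -((H' - 1) * (H - 1))) := by
  have a1 : (G' - 1) * (G - 1) = G' * G - G' - G + 1 := by noncomm_ring
  have a2 : (H' - 1) * (H - 1) = H' * H - H' - H + 1 := by noncomm_ring
  rw [a1, a2, eg, eh]; noncomm_ring

theorem alg_inv' (G' H' : R) :
    G' * H' - 1 = (G' - 1) * (H' - 1) + ((G' - 1) + (H' - 1)) := by noncomm_ring

theorem alg_three (B K X Y : R) : B * K - (B - B * (X + Y)) = B * (K - 1 + X + Y) := by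
  noncomm_ring

theorem alg_pow (G C x y : R) : G * C - 1 - (x + y) =
    (G - 1) * (C - 1) + ((G - 1 - x) + (C - 1 - y)) := by noncomm_ring

theorem alg_mul (g K x : R) : (g * K - 1) - (g - 1) - x = (g - 1) * (K - 1) + (K - 1 - x) := by
  noncomm_ring

theorem alg_mul' (g K x : R) : g * K - 1 - x = (g - 1) * (K - 1) + ((K - 1) + (g - 1 - x)) := by
  noncomm_ring

theorem alg_br (X Y P Q cr cs : R) : Br (X + cr + P) (Y + cs + Q) - Br X Y =
    (Br cr Y + Br X cs) + (Br cr cs + Br P (Y + cs + Q) + Br (X + cr) Q) := by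
  unfold Br; noncomm_ring

theorem alg_fin (W W' B B' S S' L : R) : W' - W - L =
      (W' - 1 - (B' - B' * S')) + (-(W - 1 - (B - B * S)) +
      (-((B' - B) * S') + (-(B * (S' - S)) + ((B' - B) - L)))) := by
  noncomm_ring

end Alg

theorem IsN.br {d r s : ℕ} {X Y : Mat d} (h : IsN d r X) (h' : IsN d s Y) :
    IsN d (r + s) (Br X Y) := by
  have h2 : IsN d (r + s) (Y * X) := by
    have := h'.mul h
    rwa [add_comm] at this
  exact (h.mul h').sub h2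

/-- leading term of a commutator with given leading terms -/
theorem lead_of (HL : S_LEAD) {d r s : ℕ} {g h : (Mat d)ˣ} {x y : Mat d} (hr : 1 ≤ r) (hs : 1 ≤ s)
    (hx : IsN d r x) (hy : IsN d s y) (hg : IsN d (r + 1) ((g : Mat d) - 1 - x))
    (hh : IsN d (s + 1) ((h : Mat d) - 1 - y)) :
    IsN d (r + s + 1) (((⁅g, h⁆ : (Mat d)ˣ) : Mat d) - 1 - Br x y) := by
  have hg1 : IsN d r ((g : Mat d) - 1) := by
    have : (g : Mat d) - 1 = ((g : Mat d) - 1 - x) + x := by abel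
    rw [this]; exact (hg.mono (by omega)).add hx
  have hh1 : IsN d s ((h : Mat d) - 1) := by
    have : (h : Mat d) - 1 = ((h : Mat d) - 1 - y) + y := by abel
    rw [this]; exact (hh.mono (by omega)).add hy
  have h1 := HL d r s g h hr hs hg1 hh1
  set X := (g : Mat d) - 1 with hX
  set Y := (h : Mat d) - 1 with hY
  rw [br_lead _ X Y x y]
  refine h1.add (IsN.add ?_ ?_)
  · exact (hg.br hh1).mono (by omega)
  · exact (hx.br hh).mono (by omega)

/-- the linear part -/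
def lin (n m : ZMod 7) : Mat 6 := n • aC + m • bC

theorem isN_lin (n m : ZMod 7) : IsN 6 1 (lin n m) := (isN_aC.smul n).add (isN_bC.smul m)

/-- `c = [a, b]` -/
def cC : Mat 6 := Br aC bC

theorem isN_cC : IsN 6 2 cC := isN_aC.br isN_bC

theorem br_lin (n m n' m' : ZMod 7) :
    Br (lin n m) (lin n' m') = (n * m' - m * n') • cC := by
  unfold cC lin
  rw [br_add_right, br_add_left, br_add_left]
  simp only [br_smul_left, br_smul_right, br_self, smul_zero]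
  rw [br_anti bC aC]
  module

theorem lin_sub (g : Mat 6) (n m : ZMod 7) : g - 1 - lin n m = g - 1 - n • aC - m • bC := by
  unfold lin; abel

theorem br_c_lin (n m : ZMod 7) :
    Br cC (Br cC (lin n m)) = n • Br cC (Br cC aC) + m • Br cC (Br cC bC) := by
  unfold lin
  simp only [br_add_right, br_smul_right]

theorem ccaC : Br cC (Br cC aC) 0 5 = -1 := by decide +kernel

theorem ccbC : Br cC (Br cC bC) 0 5 = 0 := by decide +kernel

theorem cc_entry (n m : ZMod 7) : Br cC (Br cC (lin n m)) 0 5 = -n := by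
  rw [br_c_lin, Matrix.add_apply, Matrix.smul_apply, Matrix.smul_apply, ccaC, ccbC]
  simp

theorem evt : S_UNI → S_LEAD → S_EVT := by
  intro _ HL g n m hg
  have hl : ∀ k, IsN 6 (1 + 1) ((g k : Mat 6) - 1 - lin (n k) (m k)) := by
    intro k; rw [lin_sub]; exact hg k
  have h01 := lead_of HL le_rfl le_rfl (isN_lin (n 0) (m 0)) (isN_lin (n 1) (m 1)) (hl 0) (hl 1)
  have h23 := lead_of HL le_rfl le_rfl (isN_lin (n 2) (m 2)) (isN_lin (n 3) (m 3)) (hl 2) (hl 3)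
  rw [br_lin] at h01 h23
  set D01 := n 0 * m 1 - m 0 * n 1
  set D23 := n 2 * m 3 - m 2 * n 3
  have h234 := lead_of HL (r := 2) (s := 1) (by norm_num) le_rfl (isN_cC.smul D23)
    (isN_lin (n 4) (m 4)) h23 (hl 4)
  have hN3 : IsN 6 3 (Br (D23 • cC) (lin (n 4) (m 4))) := (isN_cC.smul D23).br (isN_lin _ _)
  have hf := lead_of HL (r := 2) (s := 3) (by norm_num) (by norm_num) (isN_cC.smul D01)
    hN3 h01 h234
  have hz := hf.eq_zero (by norm_num)
  have hN5 : IsN 6 5 (Br (D01 • cC) (Br (D23 • cC) (lin (n 4) (m 4)))) :=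
    (isN_cC.smul D01).br hN3
  have e5 : (((⁅⁅g 0, g 1⁆, ⁅⁅g 2, g 3⁆, g 4⁆⁆ : (Mat 6)ˣ) : Mat 6) - 1) =
      Br (D01 • cC) (Br (D23 • cC) (lin (n 4) (m 4))) := sub_eq_zero.mp hz
  refine ⟨by rw [e5]; exact hN5, ?_⟩
  have e6 : ((⁅⁅g 0, g 1⁆, ⁅⁅g 2, g 3⁆, g 4⁆⁆ : (Mat 6)ˣ) : Mat 6) =
      1 + Br (D01 • cC) (Br (D23 • cC) (lin (n 4) (m 4))) := by rw [← e5]; abel
  rw [e6, Matrix.add_apply]
  have e7 : Br (D01 • cC) (Br (D23 • cC) (lin (n 4) (m 4))) =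
      (D01 * D23) • Br cC (Br cC (lin (n 4) (m 4))) := by
    simp only [br_smul_left, br_smul_right, smul_smul]
    rw [mul_comm D23 D01]
  rw [e7, Matrix.smul_apply, cc_entry]
  have e8 : (1 : Mat 6) 0 5 = 0 := by decide
  rw [e8, smul_eq_mul]; ring

/-! ## EVQ -/

/-- exact formula for the commutator of units -/
theorem comm_val {d : ℕ} (g h : (Mat d)ˣ) :
    ((⁅g, h⁆ : (Mat d)ˣ) : Mat d) - 1 =
      Br ((g : Mat d) - 1) ((h : Mat d) - 1) * ((g⁻¹ * h⁻¹ : (Mat d)ˣ) : Mat d) := by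
  have e1 : Br ((g : Mat d) - 1) ((h : Mat d) - 1) =
      (g : Mat d) * (h : Mat d) - (h : Mat d) * (g : Mat d) := alg_sub _ _
  have e2 : ((⁅g, h⁆ : (Mat d)ˣ) : Mat d) =
      ((g : Mat d) * (h : Mat d)) * ((g⁻¹ * h⁻¹ : (Mat d)ˣ) : Mat d) := by
    rw [← Units.val_mul, ← Units.val_mul]
    have : ⁅g, h⁆ = g * h * (g⁻¹ * h⁻¹) := by rw [commutatorElement_def]; group
    rw [this]
  have e3 : (1 : Mat d) =
      ((h : Mat d) * (g : Mat d)) * ((g⁻¹ * h⁻¹ : (Mat d)ˣ) : Mat d) := by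
    rw [← Units.val_mul, ← Units.val_mul]
    have : h * g * (g⁻¹ * h⁻¹) = 1 := by group
    rw [this, Units.val_one]
  rw [e1, sub_mul, ← e2, ← e3]

/-- inverse modulo `N^2` -/
theorem inv_mod {d : ℕ} (HU : S_UNI) (g h : (Mat d)ˣ) (hg : IsN d 1 ((g : Mat d) - 1))
    (hh : IsN d 1 ((h : Mat d) - 1)) :
    IsN d 2 (((g⁻¹ * h⁻¹ : (Mat d)ˣ) : Mat d) - 1 + ((g : Mat d) - 1) + ((h : Mat d) - 1)) ∧
    IsN d 1 (((g⁻¹ * h⁻¹ : (Mat d)ˣ) : Mat d) - 1) := by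
  have hgi := HU.2.1 d g 1 le_rfl hg
  have hhi := HU.2.1 d h 1 le_rfl hh
  have eg : ((g⁻¹ : (Mat d)ˣ) : Mat d) * (g : Mat d) = 1 := by
    rw [← Units.val_mul, inv_mul_cancel, Units.val_one]
  have eh : ((h⁻¹ : (Mat d)ˣ) : Mat d) * (h : Mat d) = 1 := by
    rw [← Units.val_mul, inv_mul_cancel, Units.val_one]
  rw [Units.val_mul]
  constructor
  · rw [alg_inv _ _ _ _ eg eh]
    exact (hgi.mul hhi).add ((hgi.mul hg).neg.add (hhi.mul hh).neg)
  · rw [alg_inv']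
    exact ((hgi.mul hhi).mono (by omega)).add (hgi.add hhi)

/-- third order expansion of a commutator -/
theorem comm_three {d : ℕ} (HU : S_UNI) (g h : (Mat d)ˣ) (hg : IsN d 1 ((g : Mat d) - 1))
    (hh : IsN d 1 ((h : Mat d) - 1)) :
    IsN d 4 (((⁅g, h⁆ : (Mat d)ˣ) : Mat d) - 1 - (Br ((g : Mat d) - 1) ((h : Mat d) - 1) -
      Br ((g : Mat d) - 1) ((h : Mat d) - 1) * (((g : Mat d) - 1) + ((h : Mat d) - 1)))) := by
  rw [comm_val g h]
  obtain ⟨h2, -⟩ := inv_mod HU g h hg hh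
  have hb : IsN d 2 (Br ((g : Mat d) - 1) ((h : Mat d) - 1)) := hg.br hh
  rw [alg_three]
  exact hb.mul h2

/-- the value of a commutator of two elements of `1 + t c + N^3` in dimension 6 -/
theorem comm_six (HU : S_UNI) (p q : (Mat 6)ˣ) (s t : ZMod 7)
    (hp : IsN 6 3 ((p : Mat 6) - 1 - s • cC)) (hq : IsN 6 3 ((q : Mat 6) - 1 - t • cC)) :
    ((⁅p, q⁆ : (Mat 6)ˣ) : Mat 6) - 1 =
      s • Br cC ((q : Mat 6) - 1 - t • cC) - t • Br cC ((p : Mat 6) - 1 - s • cC) := by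
  set P := (p : Mat 6) - 1 - s • cC with hP
  set R := (q : Mat 6) - 1 - t • cC with hR
  have hp1 : IsN 6 2 ((p : Mat 6) - 1) := by
    have : (p : Mat 6) - 1 = P + s • cC := by rw [hP]; abel
    rw [this]; exact (hp.mono (by omega)).add (isN_cC.smul s)
  have hq1 : IsN 6 2 ((q : Mat 6) - 1) := by
    have : (q : Mat 6) - 1 = R + t • cC := by rw [hR]; abel
    rw [this]; exact (hq.mono (by omega)).add (isN_cC.smul t)
  have eB : Br ((p : Mat 6) - 1) ((q : Mat 6) - 1) =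
      (s • Br cC R - t • Br cC P) + Br P R := by
    have e1 : (p : Mat 6) - 1 = P + s • cC := by rw [hP]; abel
    have e2 : (q : Mat 6) - 1 = R + t • cC := by rw [hR]; abel
    rw [e1, e2, br_add_right, br_add_left, br_add_left]
    simp only [br_smul_left, br_smul_right, br_self, smul_zero]
    rw [br_anti P cC]
    simp only [smul_neg]
    abel
  have eBr : Br P R = 0 := (hp.br hq).eq_zero (by norm_num)
  rw [eBr, add_zero] at eB
  have hB5 : IsN 6 5 (s • Br cC R - t • Br cC P) :=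
    ((isN_cC.br hq).smul s).sub ((isN_cC.br hp).smul t)
  obtain ⟨-, h1⟩ := inv_mod HU p q (hp1.mono (by omega)) (hq1.mono (by omega))
  rw [comm_val p q, eB]
  have hz := (hB5.mul h1).eq_zero (by norm_num)
  rw [mul_sub, mul_one, sub_eq_zero] at hz
  exact hz

/-- powers of `1 + c + N^3` -/
theorem pow_c (C : (Mat 6)ˣ) (hC : IsN 6 3 ((C : Mat 6) - 1 - cC)) (r : ℕ) :
    IsN 6 3 (((C ^ r : (Mat 6)ˣ) : Mat 6) - 1 - (r : ZMod 7) • cC) := by
  induction r with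
  | zero =>
    have : (((C ^ 0 : (Mat 6)ˣ) : Mat 6) - 1 - ((0 : ℕ) : ZMod 7) • cC) = 0 := by simp
    rw [this]; exact IsN.zero 6 3
  | succ r ih =>
    have hC1 : IsN 6 2 ((C : Mat 6) - 1) := by
      have : (C : Mat 6) - 1 = ((C : Mat 6) - 1 - cC) + cC := by abel
      rw [this]; exact (hC.mono (by omega)).add isN_cC
    have hr1 : IsN 6 2 (((C ^ r : (Mat 6)ˣ) : Mat 6) - 1) := by
      have : ((C ^ r : (Mat 6)ˣ) : Mat 6) - 1 =
        (((C ^ r : (Mat 6)ˣ) : Mat 6) - 1 - (r : ZMod 7) • cC) + (r : ZMod 7) • cC := by abel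
      rw [this]; exact (ih.mono (by omega)).add (isN_cC.smul _)
    rw [pow_succ, Units.val_mul]
    have e : (((r + 1 : ℕ) : ZMod 7)) • cC = (r : ZMod 7) • cC + cC := by
      push_cast
      rw [add_smul, one_smul]
    rw [e, alg_pow]
    exact ((hr1.mul hC1).mono (by omega)).add (ih.add hC)

theorem change_aux (W W' X X' Y Y' u v : Mat 6) (ρ σ : ZMod 7)
    (hX : IsN 6 1 X) (hX' : IsN 6 1 X') (hXd : IsN 6 3 (X' - X - ρ • cC))
    (hY : IsN 6 1 Y) (hY' : IsN 6 1 Y') (hYd : IsN 6 3 (Y' - Y - σ • cC))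
    (h3 : IsN 6 4 (W - 1 - (Br X Y - Br X Y * (X + Y))))
    (h3' : IsN 6 4 (W' - 1 - (Br X' Y' - Br X' Y' * (X' + Y'))))
    (hu : IsN 6 2 (X - u)) (hv : IsN 6 2 (Y - v)) :
    IsN 6 4 (W' - W - (ρ • Br cC v - σ • Br cC u)) := by
  obtain ⟨P, hP⟩ : ∃ P, P = X' - X - ρ • cC := ⟨_, rfl⟩
  obtain ⟨Q, hQ⟩ : ∃ Q, Q = Y' - Y - σ • cC := ⟨_, rfl⟩
  rw [← hP] at hXd
  rw [← hQ] at hYd
  have eX : X' = X + ρ • cC + P := by rw [hP]; abel
  have eY : Y' = Y + σ • cC + Q := by rw [hQ]; abel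
  have hcr : IsN 6 2 (ρ • cC) := isN_cC.smul ρ
  have hcs : IsN 6 2 (σ • cC) := isN_cC.smul σ
  have eD : Br X' Y' - Br X Y = (Br (ρ • cC) Y + Br X (σ • cC)) +
      (Br (ρ • cC) (σ • cC) + Br P Y' + Br (X + ρ • cC) Q) := by
    rw [eX, eY]; exact alg_br _ _ _ _ _ _
  have hD4 : IsN 6 4 (Br (ρ • cC) (σ • cC) + Br P Y' + Br (X + ρ • cC) Q) := by
    refine IsN.add (IsN.add ?_ ?_) ?_
    · exact hcr.br hcs
    · exact hXd.br hY'
    · exact (hX.add (hcr.mono (by omega))).br hYd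
  have hD3 : IsN 6 3 (Br X' Y' - Br X Y) := by
    rw [eD]
    refine IsN.add (IsN.add ?_ ?_) (hD4.mono (by omega))
    · exact hcr.br hY
    · exact hX.br hcs
  have hBXY : IsN 6 2 (Br X Y) := hX.br hY
  have hdif : IsN 6 2 ((X' + Y') - (X + Y)) := by
    have : (X' + Y') - (X + Y) = (ρ • cC + P) + (σ • cC + Q) := by rw [hP, hQ]; abel
    rw [this]
    exact (hcr.add (hXd.mono (by omega))).add (hcs.add (hYd.mono (by omega)))
  have hq : IsN 6 4 ((Br (ρ • cC) Y - ρ • Br cC v) + (Br X (σ • cC) + σ • Br cC u)) := by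
    have e1 : Br (ρ • cC) Y - ρ • Br cC v = Br (ρ • cC) (Y - v) := by
      rw [br_sub_right, br_smul_left, br_smul_left]
    have e2 : Br X (σ • cC) + σ • Br cC u = Br (X - u) (σ • cC) := by
      rw [br_sub_left, br_smul_right, br_smul_right, br_anti u cC, smul_neg, sub_neg_eq_add]
    rw [e1, e2]
    refine IsN.add ?_ ?_
    · exact hcr.br hv
    · exact hu.br hcs
  have hL : IsN 6 4 ((Br X' Y' - Br X Y) - (ρ • Br cC v - σ • Br cC u)) := by
    have : (Br X' Y' - Br X Y) - (ρ • Br cC v - σ • Br cC u) =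
      ((Br (ρ • cC) Y - ρ • Br cC v) + (Br X (σ • cC) + σ • Br cC u)) +
      (Br (ρ • cC) (σ • cC) + Br P Y' + Br (X + ρ • cC) Q) := by rw [eD]; abel
    rw [this]
    exact hq.add hD4
  rw [alg_fin W W' (Br X Y) (Br X' Y') (X + Y) (X' + Y')]
  refine IsN.add h3' (IsN.add h3.neg (IsN.add ?_ (IsN.add ?_ hL)))
  · exact (hD3.mul (hX'.add hY')).neg
  · exact (hBXY.mul hdif).neg

/-- change of the commutator when the arguments are multiplied by powers of `C` -/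
theorem comm_change (HU : S_UNI) (C g h : (Mat 6)ˣ) (hC : IsN 6 3 ((C : Mat 6) - 1 - cC))
    (n m n' m' : ZMod 7) (hg : IsN 6 2 ((g : Mat 6) - 1 - lin n m))
    (hh : IsN 6 2 ((h : Mat 6) - 1 - lin n' m')) (r s : ℕ) :
    IsN 6 4 (((⁅g * C ^ r, h * C ^ s⁆ : (Mat 6)ˣ) : Mat 6) - ((⁅g, h⁆ : (Mat 6)ˣ) : Mat 6) -
      ((r : ZMod 7) • Br cC (lin n' m') - (s : ZMod 7) • Br cC (lin n m))) := by
  have key : ∀ (g : (Mat 6)ˣ) (n m : ZMod 7) (r : ℕ), IsN 6 2 ((g : Mat 6) - 1 - lin n m) →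
      IsN 6 1 ((g : Mat 6) - 1) ∧ IsN 6 1 (((g * C ^ r : (Mat 6)ˣ) : Mat 6) - 1) ∧
      IsN 6 3 ((((g * C ^ r : (Mat 6)ˣ) : Mat 6) - 1) - ((g : Mat 6) - 1) -
        (r : ZMod 7) • cC) := by
    intro g n m r hg
    have hg1 : IsN 6 1 ((g : Mat 6) - 1) := by
      have : (g : Mat 6) - 1 = ((g : Mat 6) - 1 - lin n m) + lin n m := by abel
      rw [this]; exact (hg.mono (by omega)).add (isN_lin n m)
    have hp := pow_c C hC r
    have hr1 : IsN 6 2 (((C ^ r : (Mat 6)ˣ) : Mat 6) - 1) := by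
      have : ((C ^ r : (Mat 6)ˣ) : Mat 6) - 1 =
        (((C ^ r : (Mat 6)ˣ) : Mat 6) - 1 - (r : ZMod 7) • cC) + (r : ZMod 7) • cC := by abel
      rw [this]; exact (hp.mono (by omega)).add (isN_cC.smul _)
    rw [Units.val_mul]
    set K := ((C ^ r : (Mat 6)ˣ) : Mat 6)
    have e3 : IsN 6 3 (((g : Mat 6) * K - 1) - ((g : Mat 6) - 1) - (r : ZMod 7) • cC) := by
      rw [alg_mul]; exact (hg1.mul hr1).add hp
    refine ⟨hg1, ?_, e3⟩
    have e : (g : Mat 6) * K - 1 = (((g : Mat 6) * K - 1) - ((g : Mat 6) - 1) -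
        (r : ZMod 7) • cC) + (((g : Mat 6) - 1) + (r : ZMod 7) • cC) := by abel
    rw [e]
    exact (e3.mono (by omega)).add (hg1.add ((isN_cC.smul _).mono (by omega)))
  obtain ⟨hX, hX', hXd⟩ := key g n m r hg
  obtain ⟨hY, hY', hYd⟩ := key h n' m' s hh
  have h3 := comm_three HU g h hX hY
  have h3' := comm_three HU (g * C ^ r) (h * C ^ s) hX' hY'
  exact change_aux _ _ _ _ _ _ _ _ _ _ hX hX' hXd hY hY' hYd h3 h3' hg hh

theorem comm_c (HL : S_LEAD) (g h : (Mat 6)ˣ) (n m n' m' : ZMod 7)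
    (hg : IsN 6 2 ((g : Mat 6) - 1 - lin n m)) (hh : IsN 6 2 ((h : Mat 6) - 1 - lin n' m')) :
    IsN 6 3 (((⁅g, h⁆ : (Mat 6)ˣ) : Mat 6) - 1 - (n * m' - m * n') • cC) := by
  have := lead_of HL le_rfl le_rfl (isN_lin n m) (isN_lin n' m') hg hh
  rwa [br_lin] at this

theorem evq : S_UNI → S_LEAD → S_EVT → S_EVQ := by
  intro HU HL _ A B hA hB g n m r hg0
  have hg : ∀ k, IsN 6 2 ((g k : Mat 6) - 1 - lin (n k) (m k)) := by
    intro k; rw [lin_sub]; exact hg0 k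
  have hA1 : IsN 6 2 ((A : Mat 6) - 1 - lin 1 0) := by
    have : (A : Mat 6) - 1 - lin 1 0 = 0 := by rw [hA]; unfold lin; simp
    rw [this]; exact IsN.zero 6 2
  have hB1 : IsN 6 2 ((B : Mat 6) - 1 - lin 0 1) := by
    have : (B : Mat 6) - 1 - lin 0 1 = 0 := by rw [hB]; unfold lin; simp
    rw [this]; exact IsN.zero 6 2
  have hC : IsN 6 3 (((⁅A, B⁆ : (Mat 6)ˣ) : Mat 6) - 1 - cC) := by
    have := comm_c HL A B 1 0 0 1 hA1 hB1
    simpa using this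
  set C := ⁅A, B⁆
  -- the changed elements have the same linear parts
  have hg' : ∀ k, IsN 6 2 (((g k * C ^ r k : (Mat 6)ˣ) : Mat 6) - 1 - lin (n k) (m k)) := by
    intro k
    have hp := pow_c C hC (r k)
    have hr1 : IsN 6 2 (((C ^ r k : (Mat 6)ˣ) : Mat 6) - 1) := by
      have : ((C ^ r k : (Mat 6)ˣ) : Mat 6) - 1 =
        (((C ^ r k : (Mat 6)ˣ) : Mat 6) - 1 - (r k : ZMod 7) • cC) + (r k : ZMod 7) • cC := by
          abel
      rw [this]; exact (hp.mono (by omega)).add (isN_cC.smul _)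
    have hg1 : IsN 6 1 ((g k : Mat 6) - 1) := by
      have : (g k : Mat 6) - 1 = ((g k : Mat 6) - 1 - lin (n k) (m k)) + lin (n k) (m k) := by
        abel
      rw [this]; exact ((hg k).mono (by omega)).add (isN_lin _ _)
    rw [Units.val_mul]
    set K := ((C ^ r k : (Mat 6)ˣ) : Mat 6)
    rw [alg_mul']
    exact ((hg1.mul hr1).mono (by omega)).add (hr1.add (hg k))
  set D01 := n 0 * m 1 - m 0 * n 1 with hD01
  set D23 := n 2 * m 3 - m 2 * n 3 with hD23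
  have v1 := comm_six HU ⁅g 0, g 1⁆ ⁅g 2, g 3⁆ D01 D23 (comm_c HL _ _ _ _ _ _ (hg 0) (hg 1))
    (comm_c HL _ _ _ _ _ _ (hg 2) (hg 3))
  have v2 := comm_six HU ⁅g 0 * C ^ r 0, g 1 * C ^ r 1⁆ ⁅g 2 * C ^ r 2, g 3 * C ^ r 3⁆ D01 D23
    (comm_c HL _ _ _ _ _ _ (hg' 0) (hg' 1)) (comm_c HL _ _ _ _ _ _ (hg' 2) (hg' 3))
  have c01 := comm_change HU C (g 0) (g 1) hC _ _ _ _ (hg 0) (hg 1) (r 0) (r 1)
  have c23 := comm_change HU C (g 2) (g 3) hC _ _ _ _ (hg 2) (hg 3) (r 2) (r 3)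
  set W01 := ((⁅g 0, g 1⁆ : (Mat 6)ˣ) : Mat 6)
  set W23 := ((⁅g 2, g 3⁆ : (Mat 6)ˣ) : Mat 6)
  set W01' := ((⁅g 0 * C ^ r 0, g 1 * C ^ r 1⁆ : (Mat 6)ˣ) : Mat 6)
  set W23' := ((⁅g 2 * C ^ r 2, g 3 * C ^ r 3⁆ : (Mat 6)ˣ) : Mat 6)
  set u0 := lin (n 0) (m 0)
  set u1 := lin (n 1) (m 1)
  set u2 := lin (n 2) (m 2)
  set u3 := lin (n 3) (m 3)
  have z01 : Br cC (W01' - W01) =
      (r 0 : ZMod 7) • Br cC (Br cC u1) - (r 1 : ZMod 7) • Br cC (Br cC u0) := by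
    have h0 := (isN_cC.br c01).eq_zero (by norm_num)
    rw [br_sub_right, sub_eq_zero] at h0
    rw [h0, br_sub_right, br_smul_right, br_smul_right]
  have z23 : Br cC (W23' - W23) =
      (r 2 : ZMod 7) • Br cC (Br cC u3) - (r 3 : ZMod 7) • Br cC (Br cC u2) := by
    have h0 := (isN_cC.br c23).eq_zero (by norm_num)
    rw [br_sub_right, sub_eq_zero] at h0
    rw [h0, br_sub_right, br_smul_right, br_smul_right]
  have e01 : Br cC (W01' - 1 - D01 • cC) - Br cC (W01 - 1 - D01 • cC) = Br cC (W01' - W01) := by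
    rw [← br_sub_right]
    have : W01' - 1 - D01 • cC - (W01 - 1 - D01 • cC) = W01' - W01 := by abel
    rw [this]
  have e23 : Br cC (W23' - 1 - D23 • cC) - Br cC (W23 - 1 - D23 • cC) = Br cC (W23' - W23) := by
    rw [← br_sub_right]
    have : W23' - 1 - D23 • cC - (W23 - 1 - D23 • cC) = W23' - W23 := by abel
    rw [this]
  have tot : ((⁅⁅g 0 * C ^ r 0, g 1 * C ^ r 1⁆, ⁅g 2 * C ^ r 2, g 3 * C ^ r 3⁆⁆ :
      (Mat 6)ˣ) : Mat 6) - ((⁅⁅g 0, g 1⁆, ⁅g 2, g 3⁆⁆ : (Mat 6)ˣ) : Mat 6) =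
      D01 • Br cC (W23' - W23) - D23 • Br cC (W01' - W01) := by
    have : ((⁅⁅g 0 * C ^ r 0, g 1 * C ^ r 1⁆, ⁅g 2 * C ^ r 2, g 3 * C ^ r 3⁆⁆ :
      (Mat 6)ˣ) : Mat 6) - ((⁅⁅g 0, g 1⁆, ⁅g 2, g 3⁆⁆ : (Mat 6)ˣ) : Mat 6) =
      (((⁅⁅g 0 * C ^ r 0, g 1 * C ^ r 1⁆, ⁅g 2 * C ^ r 2, g 3 * C ^ r 3⁆⁆ :
      (Mat 6)ˣ) : Mat 6) - 1) - (((⁅⁅g 0, g 1⁆, ⁅g 2, g 3⁆⁆ : (Mat 6)ˣ) : Mat 6) - 1) := by abel
    rw [this, v1, v2, ← e01, ← e23, smul_sub, smul_sub]
    abel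
  rw [← Matrix.sub_apply, tot, z01, z23]
  simp only [Matrix.sub_apply, Matrix.smul_apply, cc_entry, smul_eq_mul, u0, u1, u2, u3]
  ring

end Pool.Agent.Q266.VG
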